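import Mathlib

set_option autoImplicit false

namespace Pool.Agent.Results.MP_702bfb_al.EveryCharacteristic

open Polynomial

/-! ### An abstract Grassmann-like ring `L` with parity automorphism `σ` -/

section Parity

variable {L : Type} [Ring L] (σ : L →+* L)

/-- odd elements of square zero -/
def IsOdd (x : L) : Prop := (∀ y, x * y = σ y * x) ∧ σ x = -x ∧ x * x = 0

/-- central elements fixed by `σ` -/
def IsEv (x : L) : Prop := (∀ y, x * y = y * x) ∧ σ x = x

variable {σ}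

lemma IsOdd.zero : IsOdd σ 0 := ⟨fun y => by simp, by simp, by simp⟩
lemma IsEv.zero : IsEv σ 0 := ⟨fun y => by simp, by simp⟩
lemma IsEv.one : IsEv σ 1 := ⟨fun y => by simp, by simp⟩

lemma IsOdd.anti {x y : L} (hx : IsOdd σ x) (hy : IsOdd σ y) : x * y = -(y * x) := by
  rw [hx.1, hy.2.1, neg_mul]

lemma IsOdd.add {x y : L} (hx : IsOdd σ x) (hy : IsOdd σ y) : IsOdd σ (x + y) := by
  refine ⟨fun z => ?_, ?_, ?_⟩
  · rw [add_mul, hx.1, hy.1, mul_add]
  · rw [map_add, hx.2.1, hy.2.1]; abel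
  · rw [add_mul, mul_add, mul_add, hx.2.2, hy.2.2, hx.anti hy]; abel

lemma IsOdd.neg {x : L} (hx : IsOdd σ x) : IsOdd σ (-x) := by
  refine ⟨fun z => ?_, ?_, ?_⟩
  · rw [neg_mul, hx.1, mul_neg]
  · rw [map_neg, hx.2.1]
  · rw [neg_mul_neg, hx.2.2]

lemma IsOdd.sub {x y : L} (hx : IsOdd σ x) (hy : IsOdd σ y) : IsOdd σ (x - y) := by
  rw [sub_eq_add_neg]; exact hx.add hy.neg

lemma IsEv.add {x y : L} (hx : IsEv σ x) (hy : IsEv σ y) : IsEv σ (x + y) :=
  ⟨fun z => by rw [add_mul, hx.1, hy.1, mul_add], by rw [map_add, hx.2, hy.2]⟩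

lemma IsEv.neg {x : L} (hx : IsEv σ x) : IsEv σ (-x) :=
  ⟨fun z => by rw [neg_mul, hx.1, mul_neg], by rw [map_neg, hx.2]⟩

lemma IsEv.mul_odd {x y : L} (hx : IsEv σ x) (hy : IsOdd σ y) : IsOdd σ (x * y) := by
  refine ⟨fun z => ?_, ?_, ?_⟩
  · rw [mul_assoc, hy.1, ← mul_assoc, hx.1, mul_assoc]
  · rw [map_mul, hx.2, hy.2.1, mul_neg]
  · rw [mul_assoc, ← mul_assoc y, ← hx.1 y, mul_assoc x, hy.2.2, mul_zero, mul_zero]

lemma IsOdd.mul_ev {x y : L} (hx : IsOdd σ x) (hy : IsEv σ y) : IsOdd σ (x * y) := by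
  rw [← hy.1]; exact hy.mul_odd hx

lemma IsOdd.mul_odd (hσ : ∀ y : L, σ (σ y) = y) {x y : L} (hx : IsOdd σ x) (hy : IsOdd σ y) :
    IsEv σ (x * y) := by
  refine ⟨fun z => ?_, ?_⟩
  · rw [mul_assoc, hy.1, ← mul_assoc, hx.1, hσ, mul_assoc]
  · rw [map_mul, hx.2.1, hy.2.1, neg_mul_neg]

end Parity

/-! ### The big algebra -/

section Big

variable {K L : Type} [Field K] [Ring L]

/-- The underlying group: coordinates `(a, b; c, d, e; p₁, p₂; s; q₁, q₂)`. -/
abbrev V (K L : Type) [Field K] [Ring L] : Type :=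
  K × K × K[X] × K[X] × K[X] × L × L × L × L × L

/-- The big algebra attached to an additive map `j : K[X] → L`. -/
def A (_j : K[X] →+ L) : Type := V K L

variable (j : K[X] →+ L)

noncomputable instance : AddCommGroup (A j) := inferInstanceAs (AddCommGroup (V K L))

/-- The multiplication. -/
noncomputable def mulA (x z : V K L) : V K L :=
  let (a, b, _c, d, e, p1, p2, _s, q1, q2) := x
  let (a', b', c', d', e', p1', p2', s', q1', q2') := z
  (0, 0, X * (b • d' - a • e' + a' • e - b' • d), a • c', b • c',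
    q1 * (s' + j c'), -(q2 * (s' + j c')),
    p1 * q2' - p2 * q1' + q1 * p2' - q2 * p1',
    p1 * (s' + j c'), p2 * (s' + j c'))

noncomputable instance : Mul (A j) := ⟨fun x z => mulA j x z⟩

/-- Constructor. -/
def mk (a b : K) (c d e : K[X]) (p1 p2 s q1 q2 : L) : A j :=
  ((a, b, c, d, e, p1, p2, s, q1, q2) : V K L)

lemma mk_surj (x : A j) : ∃ a b c d e p1 p2 s q1 q2, x = mk j a b c d e p1 p2 s q1 q2 :=
  ⟨_, _, _, _, _, _, _, _, _, _, rfl⟩

lemma mk_mul (a b : K) (c d e : K[X]) (p1 p2 s q1 q2 : L)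
    (a' b' : K) (c' d' e' : K[X]) (p1' p2' s' q1' q2' : L) :
    mk j a b c d e p1 p2 s q1 q2 * mk j a' b' c' d' e' p1' p2' s' q1' q2' =
      mk j 0 0 (X * (b • d' - a • e' + a' • e - b' • d)) (a • c') (b • c')
        (q1 * (s' + j c')) (-(q2 * (s' + j c')))
        (p1 * q2' - p2 * q1' + q1 * p2' - q2 * p1')
        (p1 * (s' + j c')) (p2 * (s' + j c')) := rfl

lemma mk_add (a b : K) (c d e : K[X]) (p1 p2 s q1 q2 : L)
    (a' b' : K) (c' d' e' : K[X]) (p1' p2' s' q1' q2' : L) :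
    mk j a b c d e p1 p2 s q1 q2 + mk j a' b' c' d' e' p1' p2' s' q1' q2' =
      mk j (a + a') (b + b') (c + c') (d + d') (e + e') (p1 + p1') (p2 + p2') (s + s')
        (q1 + q1') (q2 + q2') := rfl

lemma mk_neg (a b : K) (c d e : K[X]) (p1 p2 s q1 q2 : L) :
    - mk j a b c d e p1 p2 s q1 q2 =
      mk j (-a) (-b) (-c) (-d) (-e) (-p1) (-p2) (-s) (-q1) (-q2) := rfl

lemma mk_zero : (0 : A j) = mk j 0 0 0 0 0 0 0 0 0 0 := rfl

lemma mk_congr {a b : K} {c d e : K[X]} {p1 p2 s q1 q2 : L}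
    {a' b' : K} {c' d' e' : K[X]} {p1' p2' s' q1' q2' : L}
    (ha : a = a') (hb : b = b') (hc : c = c') (hd : d = d') (he : e = e')
    (hp1 : p1 = p1') (hp2 : p2 = p2') (hs : s = s') (hq1 : q1 = q1') (hq2 : q2 = q2') :
    mk j a b c d e p1 p2 s q1 q2 = mk j a' b' c' d' e' p1' p2' s' q1' q2' := by
  subst ha hb hc hd he hp1 hp2 hs hq1 hq2; rfl

lemma A_left_distrib (x y z : A j) : x * (y + z) = x * y + x * z := by
  obtain ⟨a, b, c, d, e, p1, p2, s, q1, q2, rfl⟩ := mk_surj j x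
  obtain ⟨a', b', c', d', e', p1', p2', s', q1', q2', rfl⟩ := mk_surj j y
  obtain ⟨a'', b'', c'', d'', e'', p1'', p2'', s'', q1'', q2'', rfl⟩ := mk_surj j z
  rw [mk_add, mk_mul, mk_mul, mk_mul, mk_add]
  apply mk_congr <;>
    simp only [map_add, smul_add, add_smul, mul_add, mul_sub, neg_add, add_zero] <;> abel

lemma A_right_distrib (x y z : A j) : (x + y) * z = x * z + y * z := by
  obtain ⟨a, b, c, d, e, p1, p2, s, q1, q2, rfl⟩ := mk_surj j x
  obtain ⟨a', b', c', d', e', p1', p2', s', q1', q2', rfl⟩ := mk_surj j y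
  obtain ⟨a'', b'', c'', d'', e'', p1'', p2'', s'', q1'', q2'', rfl⟩ := mk_surj j z
  rw [mk_add, mk_mul, mk_mul, mk_mul, mk_add]
  apply mk_congr <;>
    simp only [smul_add, add_smul, mul_add, mul_sub, add_mul, neg_add, add_zero] <;> abel

noncomputable instance : NonUnitalNonAssocRing (A j) :=
  { (inferInstance : AddCommGroup (A j)), (inferInstance : Mul (A j)) with
    left_distrib := A_left_distrib j
    right_distrib := A_right_distrib j
    zero_mul := by
      intro x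
      have h := A_right_distrib j 0 0 x
      rw [add_zero] at h
      exact left_eq_add.mp h
    mul_zero := by
      intro x
      have h := A_left_distrib j x 0 0
      rw [add_zero] at h
      exact left_eq_add.mp h }

variable (σ : L →+* L)

/-- The set of elements with the right parities. -/
def Good (x : A j) : Prop :=
  ∃ a b c d e p1 p2 s q1 q2, x = mk j a b c d e p1 p2 s q1 q2 ∧
    IsEv σ p1 ∧ IsEv σ p2 ∧ IsOdd σ s ∧ IsOdd σ q1 ∧ IsOdd σ q2

/-- The subring of elements with the right parities. -/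
def N (hσ : ∀ y : L, σ (σ y) = y) (hj : ∀ c, IsOdd σ (j c)) : NonUnitalSubring (A j) where
  carrier := {x | Good j σ x}
  zero_mem' := ⟨0, 0, 0, 0, 0, 0, 0, 0, 0, 0, rfl, IsEv.zero, IsEv.zero, IsOdd.zero, IsOdd.zero,
    IsOdd.zero⟩
  add_mem' := by
    rintro _ _ ⟨a, b, c, d, e, p1, p2, s, q1, q2, rfl, h1, h2, h3, h4, h5⟩
      ⟨a', b', c', d', e', p1', p2', s', q1', q2', rfl, h1', h2', h3', h4', h5'⟩
    exact ⟨_, _, _, _, _, _, _, _, _, _, mk_add j _ _ _ _ _ _ _ _ _ _ _ _ _ _ _ _ _ _ _ _,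
      h1.add h1', h2.add h2', h3.add h3', h4.add h4', h5.add h5'⟩
  neg_mem' := by
    rintro _ ⟨a, b, c, d, e, p1, p2, s, q1, q2, rfl, h1, h2, h3, h4, h5⟩
    exact ⟨_, _, _, _, _, _, _, _, _, _, mk_neg j _ _ _ _ _ _ _ _ _ _,
      h1.neg, h2.neg, h3.neg, h4.neg, h5.neg⟩
  mul_mem' := by
    rintro _ _ ⟨a, b, c, d, e, p1, p2, s, q1, q2, rfl, h1, h2, h3, h4, h5⟩
      ⟨a', b', c', d', e', p1', p2', s', q1', q2', rfl, h1', h2', h3', h4', h5'⟩
    have hS : IsOdd σ (s' + j c') := h3'.add (hj c')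
    refine ⟨_, _, _, _, _, _, _, _, _, _, mk_mul j _ _ _ _ _ _ _ _ _ _ _ _ _ _ _ _ _ _ _ _,
      h4.mul_odd hσ hS, (h5.mul_odd hσ hS).neg, ?_, h1.mul_odd hS, h2.mul_odd hS⟩
    exact (((h1.mul_odd h5').sub (h2.mul_odd h4')).add (h4.mul_ev h2')).sub (h5.mul_ev h1')

/-- The right alternative law. -/
lemma right_alt (hj : ∀ c, IsOdd σ (j c)) (x y : A j) (hy : Good j σ y) :
    (x * y) * y = x * (y * y) := by
  obtain ⟨a, b, c, d, e, p1, p2, s, q1, q2, rfl⟩ := mk_surj j x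
  obtain ⟨a', b', c', d', e', p1', p2', s', q1', q2', rfl, h1', h2', h3', h4', h5'⟩ := hy
  have hS : IsOdd σ (s' + j c') := h3'.add (hj c')
  simp only [mk_mul]
  generalize s' + j c' = S at *
  have z1 : p1' * q2' - p2' * q1' + q1' * p2' - q2' * p1' = 0 := by
    rw [h1'.1 q2', h2'.1 q1']; abel
  have z2 : X * (b' • d' - a' • e' + a' • e' - b' • d') = (0 : K[X]) := by
    rw [sub_add_cancel, sub_self, mul_zero]
  rw [z1, z2]
  apply mk_congr
  · rfl
  · rfl
  · simp only [zero_smul, smul_smul, sub_zero, zero_add]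
    rw [mul_comm a' b, mul_comm b' a]; abel_nf
  · simp
  · simp
  · simp [mul_assoc, hS.2.2]
  · simp [mul_assoc, hS.2.2]
  · rw [mul_assoc q1, mul_assoc p1 S, mul_assoc p2 S, hS.anti h5', neg_mul, mul_assoc q2,
      hS.anti h4', ← h2'.1 S, ← h1'.1 S]
    noncomm_ring
  · simp [mul_assoc, hS.2.2]
  · simp [mul_assoc, hS.2.2]

/-- `((x y) y) y = 0`. -/
lemma right_nil (hj : ∀ c, IsOdd σ (j c)) (x y : A j) (hy : Good j σ y) :
    ((x * y) * y) * y = 0 := by
  obtain ⟨a, b, c, d, e, p1, p2, s, q1, q2, rfl⟩ := mk_surj j x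
  obtain ⟨a', b', c', d', e', p1', p2', s', q1', q2', rfl, h1', h2', h3', h4', h5'⟩ := hy
  have hS : IsOdd σ (s' + j c') := h3'.add (hj c')
  simp only [mk_mul]
  generalize s' + j c' = S at *
  rw [mk_zero]
  apply mk_congr <;> simp [mul_assoc, hS.2.2]

/-- `x³ = 0`. -/
lemma cube (hj : ∀ c, IsOdd σ (j c)) (y : A j) (hy : Good j σ y) :
    (y * y) * y = 0 := by
  obtain ⟨a', b', c', d', e', p1', p2', s', q1', q2', rfl, h1', h2', h3', h4', h5'⟩ := hy
  have hS : IsOdd σ (s' + j c') := h3'.add (hj c')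
  simp only [mk_mul]
  generalize s' + j c' = S at *
  rw [mk_zero]
  apply mk_congr
  · rfl
  · rfl
  · simp only [zero_smul, smul_smul, sub_zero, zero_add]
    rw [mul_comm a' b', sub_self, mul_zero]
  · simp
  · simp
  · simp [mul_assoc, hS.2.2]
  · simp [mul_assoc, hS.2.2]
  · rw [mul_assoc q1', mul_assoc p1' S, mul_assoc p2' S, hS.anti h5', neg_mul, mul_assoc q2',
      hS.anti h4', ← h2'.1 S, ← h1'.1 S, mul_neg, mul_neg, ← mul_assoc q1', ← mul_assoc q2',
      ← mul_assoc p1', ← mul_assoc p2', h4'.anti h5', h1'.1 p2']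
    noncomm_ring
  · simp [mul_assoc, hS.2.2]
  · simp [mul_assoc, hS.2.2]

/-- The right Moufang identity. -/
lemma moufang (hj : ∀ c, IsOdd σ (j c)) (x y z : A j) (hy : Good j σ y) (hz : Good j σ z) :
    ((x * y) * z) * y = x * ((y * z) * y) := by
  obtain ⟨a, b, c, d, e, p1, p2, s, q1, q2, rfl⟩ := mk_surj j x
  obtain ⟨a', b', c', d', e', p1', p2', s', q1', q2', rfl, h1', h2', h3', h4', h5'⟩ := hy
  obtain ⟨a'', b'', c'', d'', e'', p1'', p2'', s'', q1'', q2'', rfl, h1, h2, h3, h4, h5⟩ := hz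
  have hS : IsOdd σ (s' + j c') := h3'.add (hj c')
  have hT : IsOdd σ (s'' + j c'') := h3.add (hj c'')
  simp only [mk_mul]
  generalize s' + j c' = S at *
  generalize s'' + j c'' = T at *
  have hSTS : S * (T * S) = 0 := by
    rw [hT.anti hS, mul_neg, ← mul_assoc, hS.2.2, zero_mul, neg_zero]
  -- the middle product `(y z) y` has vanishing `c`- and `s`-coordinates
  have z1 : q1' * T * q2' - -(q2' * T) * q1' + p1' * T * p2' - p2' * T * p1' = 0 := by
    rw [mul_assoc q1', mul_assoc p1' T, mul_assoc p2' T, hT.anti h5', neg_mul, mul_assoc q2',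
      hT.anti h4', ← h2'.1 T, ← h1'.1 T, mul_neg, mul_neg, ← mul_assoc q1', ← mul_assoc q2',
      ← mul_assoc p1', ← mul_assoc p2', h4'.anti h5', h1'.1 p2']
    noncomm_ring
  have z2 : (X * ((0 : K) • d' - (0 : K) • e' + a' • b' • c'' - b' • a' • c'') : K[X]) = 0 := by
    rw [smul_smul, smul_smul, mul_comm a' b', zero_smul, zero_smul, sub_zero, zero_add, sub_self,
      mul_zero]
  rw [z1, z2]
  apply mk_congr
  · rfl
  · rfl
  · simp
  · simp
  · simp
  · simp [mul_assoc, hSTS]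
  · simp [mul_assoc, hSTS]
  · have e1 : S * (T * q2') = q2' * (S * T) := by
      rw [hT.anti h5', mul_neg, ← mul_assoc, hS.anti h5', neg_mul, neg_neg, mul_assoc]
    have e2 : S * (T * q1') = q1' * (S * T) := by
      rw [hT.anti h4', mul_neg, ← mul_assoc, hS.anti h4', neg_mul, neg_neg, mul_assoc]
    have e3 : S * (T * p2') = p2' * (S * T) := by
      rw [← mul_assoc, ← h2'.1]
    have e4 : S * (T * p1') = p1' * (S * T) := by
      rw [← mul_assoc, ← h1'.1]
    have hTS : T * S = -(S * T) := hT.anti hS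
    simp only [mul_assoc, e1, e2, e3, e4, hTS, neg_mul, mul_neg, neg_neg, sub_neg_eq_add]
  · simp [mul_assoc, hSTS]
  · simp [mul_assoc, hSTS]

/-! ### The finitely generated subring -/

/-- The five generators. -/
noncomputable def gens : Set (A j) :=
  {mk j 1 0 0 0 0 0 0 0 0 0, mk j 0 1 0 0 0 0 0 0 0 0, mk j 0 0 1 0 0 0 0 0 0 0,
    mk j 0 0 0 0 0 1 0 0 0 0, mk j 0 0 0 0 0 0 1 0 0 0}

/-- The subring generated by the five generators. -/
noncomputable def R0 : NonUnitalSubring (A j) := NonUnitalSubring.closure (gens j)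

lemma R0_good (hσ : ∀ y : L, σ (σ y) = y) (hj : ∀ c, IsOdd σ (j c)) {x : A j}
    (hx : x ∈ R0 j) : Good j σ x := by
  have h : R0 j ≤ N j σ hσ hj := by
    refine NonUnitalSubring.closure_le.mpr ?_
    rintro x hx
    simp only [gens, Set.mem_insert_iff, Set.mem_singleton_iff] at hx
    rcases hx with rfl | rfl | rfl | rfl | rfl
    · exact ⟨_, _, _, _, _, _, _, _, _, _, rfl, IsEv.zero, IsEv.zero, IsOdd.zero, IsOdd.zero,
        IsOdd.zero⟩
    · exact ⟨_, _, _, _, _, _, _, _, _, _, rfl, IsEv.zero, IsEv.zero, IsOdd.zero, IsOdd.zero,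
        IsOdd.zero⟩
    · exact ⟨_, _, _, _, _, _, _, _, _, _, rfl, IsEv.zero, IsEv.zero, IsOdd.zero, IsOdd.zero,
        IsOdd.zero⟩
    · exact ⟨_, _, _, _, _, _, _, _, _, _, rfl, IsEv.one, IsEv.zero, IsOdd.zero, IsOdd.zero,
        IsOdd.zero⟩
    · exact ⟨_, _, _, _, _, _, _, _, _, _, rfl, IsEv.zero, IsEv.one, IsOdd.zero, IsOdd.zero,
        IsOdd.zero⟩
  exact h hx

noncomputable def eC (c : K[X]) : A j := mk j 0 0 c 0 0 0 0 0 0 0
noncomputable def eP1 (u : L) : A j := mk j 0 0 0 0 0 u 0 0 0 0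
noncomputable def eP2 (u : L) : A j := mk j 0 0 0 0 0 0 u 0 0 0
noncomputable def eT (u : L) : A j := mk j 0 0 0 0 0 0 0 u 0 0
noncomputable def eQ1 (u : L) : A j := mk j 0 0 0 0 0 0 0 0 u 0
noncomputable def eQ2 (u : L) : A j := mk j 0 0 0 0 0 0 0 0 0 u

lemma P1_C (c : K[X]) : eP1 j 1 * eC j c = eQ1 j (j c) := by
  unfold eP1 eC eQ1; rw [mk_mul]; simp
lemma P2_C (c : K[X]) : eP2 j 1 * eC j c = eQ2 j (j c) := by
  unfold eP2 eC eQ2; rw [mk_mul]; simp
lemma P1_T (u v : L) : eP1 j u * eT j v = eQ1 j (u * v) := by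
  unfold eP1 eT eQ1; rw [mk_mul]; simp
lemma P2_T (u v : L) : eP2 j u * eT j v = eQ2 j (u * v) := by
  unfold eP2 eT eQ2; rw [mk_mul]; simp
lemma Q1_T (u v : L) : eQ1 j u * eT j v = eP1 j (u * v) := by
  unfold eP1 eT eQ1; rw [mk_mul]; simp
lemma Q2_T (u v : L) : eQ2 j u * eT j v = -eP2 j (u * v) := by
  unfold eP2 eT eQ2; rw [mk_mul, mk_neg]; simp
lemma P1_Q2 (u v : L) : eP1 j u * eQ2 j v = eT j (u * v) := by
  unfold eP1 eT eQ2; rw [mk_mul]; simp

lemma C_mem (i : ℕ) : eC j (X ^ i) ∈ R0 j := by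
  induction i with
  | zero =>
    rw [pow_zero]
    exact NonUnitalSubring.subset_closure (by simp [gens, eC])
  | succ i ih =>
    have h : mk j 0 1 0 0 0 0 0 0 0 0 * (mk j 1 0 0 0 0 0 0 0 0 0 * eC j (X ^ i)) =
        eC j (X ^ (i + 1)) := by
      unfold eC; rw [mk_mul, mk_mul, pow_succ']; simp
    rw [← h]
    exact (R0 j).mul_mem (NonUnitalSubring.subset_closure (by simp [gens]))
      ((R0 j).mul_mem (NonUnitalSubring.subset_closure (by simp [gens])) ih)

lemma P1_mem : eP1 j 1 ∈ R0 j := NonUnitalSubring.subset_closure (by simp [gens, eP1])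
lemma P2_mem : eP2 j 1 ∈ R0 j := NonUnitalSubring.subset_closure (by simp [gens, eP2])
lemma Q1_mem (i : ℕ) : eQ1 j (j (X ^ i)) ∈ R0 j := by
  rw [← P1_C]; exact (R0 j).mul_mem (P1_mem j) (C_mem j i)
lemma Q2_mem (i : ℕ) : eQ2 j (j (X ^ i)) ∈ R0 j := by
  rw [← P2_C]; exact (R0 j).mul_mem (P2_mem j) (C_mem j i)
lemma T_mem (i : ℕ) : eT j (j (X ^ i)) ∈ R0 j := by
  have h := (R0 j).mul_mem (P1_mem j) (Q2_mem j i)
  rwa [P1_Q2, one_mul] at h

/-- Index lists of the monomials used to show non-solvability. -/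
def W : ℕ → ℕ → List ℕ × List ℕ
  | 0, n => ([n], [])
  | k + 1, n => ((W k (2 * n)).2 ++ (W k (2 * n + 1)).1, (W k (2 * n)).1 ++ (W k (2 * n + 1)).1)

lemma W_bounds (k n : ℕ) :
    (∀ i ∈ (W k n).1, n * 2 ^ k ≤ i ∧ i < (n + 1) * 2 ^ k) ∧
    (∀ i ∈ (W k n).2, n * 2 ^ k ≤ i ∧ i < (n + 1) * 2 ^ k) := by
  induction k generalizing n with
  | zero => simp [W]
  | succ k ih =>
    obtain ⟨h1, h2⟩ := ih (2 * n)
    obtain ⟨h3, h4⟩ := ih (2 * n + 1)
    have e : 2 ^ (k + 1) = 2 * 2 ^ k := pow_succ' 2 k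
    have hp : 0 < 2 ^ k := by positivity
    constructor
    · intro i hi
      rw [W, List.mem_append] at hi
      rcases hi with hi | hi
      · have := h2 i hi; rw [e]; constructor <;> nlinarith
      · have := h3 i hi; rw [e]; constructor <;> nlinarith
    · intro i hi
      rw [W, List.mem_append] at hi
      rcases hi with hi | hi
      · have := h1 i hi; rw [e]; constructor <;> nlinarith
      · have := h3 i hi; rw [e]; constructor <;> nlinarith

lemma W_nodup (k n : ℕ) : (W k n).1.Nodup ∧ (W k n).2.Nodup := by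
  induction k generalizing n with
  | zero => simp [W]
  | succ k ih =>
    obtain ⟨h1, h2⟩ := ih (2 * n)
    obtain ⟨h3, h4⟩ := ih (2 * n + 1)
    have b := W_bounds k (2 * n)
    have b' := W_bounds k (2 * n + 1)
    constructor
    · rw [W]
      refine List.Nodup.append h2 h3 ?_
      intro i hi hi'
      have := b.2 i hi
      have := b'.1 i hi'
      omega
    · rw [W]
      refine List.Nodup.append h1 h3 ?_
      intro i hi hi'
      have := b.1 i hi
      have := b'.1 i hi'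
      omega

/-- The monomial attached to an index list. -/
noncomputable def wd (l : List ℕ) : L := (l.map fun i => j (X ^ i)).prod

lemma wd_append (l l' : List ℕ) : wd j (l ++ l') = wd j l * wd j l' := by
  simp [wd]

lemma not_solvable (hne : ∀ l : List ℕ, l.Nodup → wd j l ≠ 0)
    (D : ℕ → AddSubgroup (R0 j)) (hD0 : D 0 = ⊤)
    (hD : ∀ k : ℕ, D (k + 1) = AddSubgroup.closure {z | ∃ a ∈ D k, ∃ b ∈ D k, z = a * b})
    (m : ℕ) : D m ≠ ⊥ := by
  have hmul : ∀ k (x y : A j), (∃ u ∈ D k, u.1 = x) → (∃ u ∈ D k, u.1 = y) →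
      ∃ u ∈ D (k + 1), u.1 = x * y := by
    rintro k _ _ ⟨u, hu, rfl⟩ ⟨v, hv, rfl⟩
    refine ⟨u * v, ?_, rfl⟩
    rw [hD]
    exact AddSubgroup.subset_closure ⟨u, hu, v, hv, rfl⟩
  have key : ∀ k n, (∃ u ∈ D k, u.1 = eT j (wd j (W k n).1)) ∧
      (∃ u ∈ D k, u.1 = eQ1 j (wd j (W k n).1)) ∧ (∃ u ∈ D k, u.1 = eQ2 j (wd j (W k n).1)) ∧
      (∃ u ∈ D k, u.1 = eP1 j (wd j (W k n).2)) ∧ (∃ u ∈ D k, u.1 = eP2 j (wd j (W k n).2)) := by
    intro k
    induction k with
    | zero =>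
      intro n
      rw [hD0]
      have e1 : wd j (W 0 n).1 = j (X ^ n) := by simp [W, wd]
      have e2 : wd j (W 0 n).2 = 1 := by simp [W, wd]
      rw [e1, e2]
      exact ⟨⟨⟨_, T_mem j n⟩, trivial, rfl⟩, ⟨⟨_, Q1_mem j n⟩, trivial, rfl⟩,
        ⟨⟨_, Q2_mem j n⟩, trivial, rfl⟩, ⟨⟨_, P1_mem j⟩, trivial, rfl⟩,
        ⟨⟨_, P2_mem j⟩, trivial, rfl⟩⟩
    | succ k ih =>
      intro n
      obtain ⟨t, q1, q2, p1, p2⟩ := ih (2 * n)
      obtain ⟨t', q1', q2', p1', p2'⟩ := ih (2 * n + 1)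
      have e1 : wd j (W (k + 1) n).1 = wd j (W k (2 * n)).2 * wd j (W k (2 * n + 1)).1 := by
        rw [W]; exact wd_append j _ _
      have e2 : wd j (W (k + 1) n).2 = wd j (W k (2 * n)).1 * wd j (W k (2 * n + 1)).1 := by
        rw [W]; exact wd_append j _ _
      rw [e1, e2]
      refine ⟨?_, ?_, ?_, ?_, ?_⟩
      · rw [← P1_Q2]; exact hmul k _ _ p1 q2'
      · rw [← P1_T]; exact hmul k _ _ p1 t'
      · rw [← P2_T]; exact hmul k _ _ p2 t'
      · rw [← Q1_T]; exact hmul k _ _ q1 t'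
      · obtain ⟨u, hu, hu'⟩ := hmul k _ _ q2 t'
        refine ⟨-u, neg_mem hu, ?_⟩
        rw [NegMemClass.coe_neg, hu', Q2_T, neg_neg]
  intro hm
  obtain ⟨⟨u, hu, hu'⟩, -⟩ := key m 0
  rw [hm, AddSubgroup.mem_bot] at hu
  rw [hu] at hu'
  have h2 : (0 : L) = wd j (W m 0).1 :=
    congrArg (fun x : V K L => x.2.2.2.2.2.2.2.1) (show (0 : V K L) = _ from hu')
  exact hne _ (W_nodup m 0).1 h2.symm

end Big

lemma closure_pre {B : Type} [NonUnitalNonAssocRing B] (s : Set B) :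
    NonUnitalSubring.closure ((Subtype.val : NonUnitalSubring.closure s → B) ⁻¹' s) = ⊤ := by
  rw [eq_top_iff]
  rintro ⟨x, hx⟩ -
  induction hx using NonUnitalSubring.closure_induction with
  | mem x h => exact NonUnitalSubring.subset_closure h
  | zero => exact zero_mem _
  | add x y hx hy h1 h2 => exact add_mem h1 h2
  | neg x hx h => exact neg_mem h
  | mul x y hx hy h1 h2 => exact mul_mem h1 h2

/-! ### The exterior algebra -/

section Ext

variable (K : Type) [Field K]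

/-- The exterior algebra of the polynomial space. -/
abbrev Lam : Type := ExteriorAlgebra K K[X]

noncomputable def sg : Lam K →+* Lam K :=
  (CliffordAlgebra.involute (Q := (0 : QuadraticForm K K[X]))).toRingHom

noncomputable def jj : K[X] →+ Lam K := (ExteriorAlgebra.ι K (M := K[X])).toAddMonoidHom

lemma sg_sg (y : Lam K) : sg K (sg K y) = y :=
  CliffordAlgebra.involute_involute (Q := (0 : QuadraticForm K K[X])) y

lemma jj_odd (c : K[X]) : IsOdd (sg K) (jj K c) := by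
  refine ⟨fun y => ?_, CliffordAlgebra.involute_ι (Q := (0 : QuadraticForm K K[X])) c,
    ExteriorAlgebra.ι_sq_zero c⟩
  induction y using ExteriorAlgebra.induction with
  | algebraMap r =>
    have h : sg K (algebraMap K (Lam K) r) = algebraMap K (Lam K) r :=
      (CliffordAlgebra.involute (Q := (0 : QuadraticForm K K[X]))).commutes r
    rw [h]; exact (Algebra.commutes r _).symm
  | ι x =>
    have h : sg K (ExteriorAlgebra.ι K x) = -(ExteriorAlgebra.ι K x) :=
      CliffordAlgebra.involute_ι (Q := (0 : QuadraticForm K K[X])) x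
    rw [h, neg_mul]
    exact eq_neg_of_add_eq_zero_left (ExteriorAlgebra.ι_add_mul_swap c x)
  | mul a b ha hb => rw [← mul_assoc, ha, mul_assoc, hb, map_mul, mul_assoc]
  | add a b ha hb => rw [mul_add, ha, hb, map_add, add_mul]

/-- Contraction with the `i`-th coordinate. -/
noncomputable def ctr (i : ℕ) : Lam K →ₗ[K] Lam K :=
  CliffordAlgebra.contractLeft (Q := (0 : QuadraticForm K K[X])) (Polynomial.lcoeff K i)

lemma ctr_mul (i k : ℕ) (b : Lam K) :
    ctr K i (jj K (X ^ k) * b) = (if k = i then b else 0) - jj K (X ^ k) * ctr K i b := by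
  have h := CliffordAlgebra.contractLeft_ι_mul (Q := (0 : QuadraticForm K K[X]))
    (Polynomial.lcoeff K i) (X ^ k : K[X]) b
  refine h.trans ?_
  congr 1
  rw [Polynomial.lcoeff_apply, Polynomial.coeff_X_pow]
  by_cases hik : k = i
  · rw [if_pos hik, if_pos hik.symm, one_smul]
  · rw [if_neg hik, if_neg (fun h => hik h.symm), zero_smul]

lemma ctr_wd (i : ℕ) (l : List ℕ) (hi : i ∉ l) : ctr K i (wd (jj K) l) = 0 := by
  induction l with
  | nil =>
    exact CliffordAlgebra.contractLeft_one (0 : QuadraticForm K K[X]) (Polynomial.lcoeff K i)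
  | cons k l ih =>
    rw [List.mem_cons, not_or] at hi
    have : wd (jj K) (k :: l) = jj K (X ^ k) * wd (jj K) l := by simp [wd]
    rw [this, ctr_mul, if_neg (fun h => hi.1 h.symm), ih hi.2, mul_zero, sub_zero]

lemma wd_ne (l : List ℕ) (hl : l.Nodup) : wd (jj K) l ≠ 0 := by
  induction l with
  | nil => simp [wd]
  | cons k l ih =>
    rw [List.nodup_cons] at hl
    intro h
    have e : wd (jj K) (k :: l) = jj K (X ^ k) * wd (jj K) l := by simp [wd]
    have h2 := ctr_mul K k k (wd (jj K) l)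
    rw [← e, h, map_zero, if_pos rfl, ctr_wd K k l hl.1, mul_zero, sub_zero] at h2
    exact ih hl.2 h2.symm

lemma order_iff (c : ℕ) [CharP K c] (n : ℕ) (x : V K (Lam K)) (hx : x ≠ 0) :
    n • x = 0 ↔ c ∣ n := by
  rw [← Nat.cast_smul_eq_nsmul K n x, smul_eq_zero, ← CharP.cast_eq_zero_iff K c n]
  exact ⟨fun h => h.resolve_right hx, fun h => Or.inl h⟩

theorem main (c : ℕ) [CharP K c] :
    ∃ (R : Type) (_ : NonUnitalNonAssocRing R),
      (∀ (n : ℕ) (x : R), x ≠ 0 → (n • x = 0 ↔ c ∣ n)) ∧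
      (∀ x y : R, (x * y) * y = x * (y * y)) ∧
      (∀ x y z : R, ((x * y) * z) * y = x * ((y * z) * y)) ∧
      (∃ s : Finset R, NonUnitalSubring.closure (s : Set R) = ⊤) ∧
      (∀ x : R, (x * x) * x = 0) ∧
      (∀ x y : R, ((x * y) * y) * y = 0) ∧
      (∀ D : ℕ → AddSubgroup R, D 0 = ⊤ →
        (∀ k : ℕ, D (k + 1) =
          AddSubgroup.closure {z : R | ∃ a ∈ D k, ∃ b ∈ D k, z = a * b}) →
        ∀ m : ℕ, D m ≠ ⊥) := by
  refine ⟨R0 (jj K), inferInstance, ?_, ?_, ?_, ?_, ?_, ?_, ?_⟩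
  · rintro n ⟨x, hx⟩ hne
    have hx0 : x ≠ 0 := fun h => hne (Subtype.ext h)
    have e : n • (⟨x, hx⟩ : R0 (jj K)) = 0 ↔ n • x = 0 := by
      rw [Subtype.ext_iff]; rfl
    rw [e]
    exact order_iff K c n x hx0
  · rintro ⟨x, hx⟩ ⟨y, hy⟩
    exact Subtype.ext (right_alt (jj K) (sg K) (jj_odd K) x y
      (R0_good _ (sg K) (sg_sg K) (jj_odd K) hy))
  · rintro ⟨x, hx⟩ ⟨y, hy⟩ ⟨z, hz⟩
    exact Subtype.ext (moufang (jj K) (sg K) (jj_odd K) x y z
      (R0_good _ (sg K) (sg_sg K) (jj_odd K) hy) (R0_good _ (sg K) (sg_sg K) (jj_odd K) hz))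
  · have hfin : (gens (jj K)).Finite := by
      unfold gens; exact Set.toFinite _
    refine ⟨(hfin.preimage (Subtype.val_injective (p := (· ∈ R0 (jj K))).injOn)).toFinset, ?_⟩
    rw [Set.Finite.coe_toFinset]
    exact closure_pre (gens (jj K))
  · rintro ⟨x, hx⟩
    exact Subtype.ext (cube (jj K) (sg K) (jj_odd K) x
      (R0_good _ (sg K) (sg_sg K) (jj_odd K) hx))
  · rintro ⟨x, hx⟩ ⟨y, hy⟩
    exact Subtype.ext (right_nil (jj K) (sg K) (jj_odd K) x y
      (R0_good _ (sg K) (sg_sg K) (jj_odd K) hy))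
  · intro D h0 h1 m
    exact not_solvable (jj K) (fun l hl => wd_ne K l hl) D h0 h1 m

end Ext

/-- In every characteristic `c` (`c = 0` or `c` prime) there is a finitely generated ring which is
right alternative, satisfies the right Moufang identity and the identities `x³ = 0` and
`((x y) y) y = 0`, and is not solvable. For `c = 0` its additive group is torsion-free, for `c`
prime every nonzero element has additive order `c`. -/
theorem result (c : ℕ) (hc : c = 0 ∨ c.Prime) :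
    ∃ (R : Type) (_ : NonUnitalNonAssocRing R),
      (∀ (n : ℕ) (x : R), x ≠ 0 → (n • x = 0 ↔ c ∣ n)) ∧
      (∀ x y : R, (x * y) * y = x * (y * y)) ∧
      (∀ x y z : R, ((x * y) * z) * y = x * ((y * z) * y)) ∧
      (∃ s : Finset R, NonUnitalSubring.closure (s : Set R) = ⊤) ∧
      (∀ x : R, (x * x) * x = 0) ∧
      (∀ x y : R, ((x * y) * y) * y = 0) ∧
      (∀ D : ℕ → AddSubgroup R, D 0 = ⊤ →
        (∀ k : ℕ, D (k + 1) =
          AddSubgroup.closure {z : R | ∃ a ∈ D k, ∃ b ∈ D k, z = a * b}) →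
        ∀ m : ℕ, D m ≠ ⊥) := by
  rcases hc with rfl | hc
  · exact main ℚ 0
  · have : Fact c.Prime := ⟨hc⟩
    exact main (ZMod c) c

end Pool.Agent.Results.MP_702bfb_al.EveryCharacteristic
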